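import Pool.Agent.Helper953_LLS.Final

/-!
The Lee-Loh-Sudakov conjecture on judicious bipartitions of digraphs: for every `k ≥ 1`, the
optimal constant for digraphs of minimum outdegree at least `k` with at least `M` edges tends to
`(k - 1) / (2 (2 k - 1))` as `M` tends to infinity.
-/

theorem Pool.Agent.Results.MP_e27e95_co.AsymptoticValue.result (k : ℕ) (hk : 1 ≤ k) :
    Filter.Tendsto (fun M : ℕ => Pool.Agent.Helper953.cInf k M) Filter.atTop
      (nhds (((k : ℝ) - 1) / (2 * (2 * (k : ℝ) - 1)))) :=
  Pool.Agent.Helper953.tendsto_cInf k hk
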