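import Pool.Agent.Helper953_LLS.Final

/-!
Two-sided bounds for the exact constant `c(k)`, for every `k ≥ 1`.
-/

theorem Pool.Agent.Results.MP_e27e95_co.ExactBounds.result (k : ℕ) (hk : 1 ≤ k) :
    ((k : ℝ) - 1) / (4 * (k : ℝ)) ≤ Pool.Agent.Helper953.cInf k 0 ∧
      Pool.Agent.Helper953.cInf k 0 ≤ ((k : ℝ) - 1) / (2 * (2 * (k : ℝ) - 1)) :=
  ⟨Pool.Agent.Helper953.exact_lower k hk 0, Pool.Agent.Helper953.cInf_le k hk 0⟩
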